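import Mathlib
import Pool.Graph.R_pool_sql_team_39128cda.H.MP_dcf9ac_co.G

/-!
# The case `k = 3` of the divisible case: `M(3(r-1), r) = 2` exactly for `r ≤ 4`

For `r ≥ 5` we construct graphs on `3(r-1)` vertices without independent set of size `r` and with
2-density at most `27/14`.  The first one is the 12-vertex graph of the library; the others arise
from it by adding paths `a - v - b` on three new vertices.
-/

set_option autoImplicit false
set_option linter.unusedSimpArgs false

namespace Pool.Agent.Results.MP_dcf9ac_co.TripleCase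

open Finset

/-! ### Definitions used in the statement -/

/-- `d₂(H) = (e(H) - 1) / (v(H) - 2)` for a subgraph `H` of `G` -/
noncomputable def d2 {V : Type} {G : SimpleGraph V} (H : G.Subgraph) : ℝ :=
  ((H.edgeSet.ncard : ℝ) - 1) / ((H.verts.ncard : ℝ) - 2)

/-- the 2-density `m₂(G)`: the maximum of `d₂(H)` over the subgraphs `H` of `G` with at least three
vertices -/
noncomputable def m2 {V : Type} (G : SimpleGraph V) : ℝ :=
  sSup {x : ℝ | ∃ H : G.Subgraph, 3 ≤ H.verts.ncard ∧ x = d2 H}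

/-- `M(m, r)`: the least 2-density of a graph on `m` vertices with no independent set of size `r` -/
noncomputable def M (m r : ℕ) : ℝ :=
  sInf {x : ℝ | ∃ G : SimpleGraph (Fin m), Gᶜ.CliqueFree r ∧ x = m2 G}

/-! ### Counting edges -/

open Classical in
/-- indicator of a proposition -/
noncomputable def ind (p : Prop) : ℕ := if p then 1 else 0

theorem ind_pos {p : Prop} (h : p) : ind p = 1 := if_pos h

theorem ind_neg {p : Prop} (h : ¬ p) : ind p = 0 := if_neg h

theorem ind_le_one (p : Prop) : ind p ≤ 1 := by unfold ind; split_ifs <;> omega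

theorem sum_ind {α : Type} [Fintype α] (S : Finset α) : ∑ x : α, ind (x ∈ S) = S.card := by
  classical
  have h := Finset.card_filter (fun x => x ∈ S) (univ : Finset α)
  rw [filter_mem_eq_inter, univ_inter] at h
  rw [h]
  refine sum_congr rfl fun x _ => ?_
  by_cases hx : x ∈ S
  · rw [ind_pos hx, if_pos hx]
  · rw [ind_neg hx, if_neg hx]

/-- twice the number of edges inside `S` -/
noncomputable def e2 {V : Type} [Fintype V] (G : SimpleGraph V) (S : Finset V) : ℕ :=
  ∑ x, ∑ y, ind (x ∈ S ∧ y ∈ S ∧ G.Adj x y)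

/-- independent sets -/
def Ind {V : Type} (G : SimpleGraph V) (S : Finset V) : Prop := ∀ x ∈ S, ∀ y ∈ S, ¬ G.Adj x y

theorem e2_small {V : Type} [Fintype V] (G : SimpleGraph V) (S : Finset V) :
    (S.card ≤ 1 → e2 G S = 0) ∧ (S.card = 2 → e2 G S ≤ 2) := by
  classical
  constructor
  · intro h
    unfold e2
    refine sum_eq_zero fun x _ => sum_eq_zero fun y _ => ?_
    rw [ind_neg]
    rintro ⟨hx, hy, hxy⟩
    exact hxy.ne (card_le_one.mp h x hx y hy)
  · intro h
    obtain ⟨a, b, hab, rfl⟩ := card_eq_two.mp h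
    unfold e2
    have h1 : ∀ x y, ind (x ∈ ({a, b} : Finset V) ∧ y ∈ ({a, b} : Finset V) ∧ G.Adj x y)
        ≤ (if x = a ∧ y = b then 1 else 0) + (if x = b ∧ y = a then 1 else 0) := by
      intro x y
      by_cases hc : x ∈ ({a, b} : Finset V) ∧ y ∈ ({a, b} : Finset V) ∧ G.Adj x y
      · rw [ind_pos hc]
        obtain ⟨hx, hy, hxy⟩ := hc
        have := hxy.ne
        simp only [mem_insert, mem_singleton] at hx hy
        rcases hx with rfl | rfl <;> rcases hy with rfl | rfl <;> simp_all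
      · rw [ind_neg hc]; omega
    calc _ ≤ ∑ x : V, ∑ y : V, ((if x = a ∧ y = b then 1 else 0) +
          (if x = b ∧ y = a then 1 else 0)) := sum_le_sum fun x _ => sum_le_sum fun y _ => h1 x y
      _ = 2 := by simp [sum_add_distrib, ite_and]

theorem e2_ind {V : Type} [Fintype V] (G : SimpleGraph V) (S : Finset V) (h : Ind G S) :
    e2 G S = 0 := by
  unfold e2
  refine sum_eq_zero fun x _ => sum_eq_zero fun y _ => ?_
  rw [ind_neg]
  rintro ⟨hx, hy, hxy⟩
  exact h x hx y hy hxy

/-- the spanning subgraph with the edges inside `S` -/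
def inside {V : Type} (G : SimpleGraph V) (S : Finset V) : SimpleGraph V where
  Adj x y := x ∈ S ∧ y ∈ S ∧ G.Adj x y
  symm := ⟨fun _ _ h => ⟨h.2.1, h.1, h.2.2.symm⟩⟩
  loopless := ⟨fun _ h => h.2.2.ne rfl⟩

theorem sum_adj {V : Type} [Fintype V] (G : SimpleGraph V) :
    ∑ x, ∑ y, ind (G.Adj x y) = 2 * G.edgeSet.ncard := by
  classical
  have h := G.sum_degrees_eq_twice_card_edges
  rw [Set.ncard_eq_toFinset_card', ← SimpleGraph.edgeFinset, ← h]
  refine sum_congr rfl fun x _ => ?_
  rw [← SimpleGraph.card_neighborFinset_eq_degree, ← sum_ind]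
  simp only [SimpleGraph.mem_neighborFinset]

theorem e2_eq {V : Type} [Fintype V] (G : SimpleGraph V) (S : Finset V) :
    e2 G S = 2 * (inside G S).edgeSet.ncard := sum_adj (inside G S)

theorem e2_even {V : Type} [Fintype V] (G : SimpleGraph V) (S : Finset V) :
    ∃ k, e2 G S = 2 * k := ⟨_, e2_eq G S⟩

/-- the number of edges of a subgraph with vertex set `S` -/
theorem sub_edges {V : Type} [Fintype V] {G : SimpleGraph V} (H : G.Subgraph) (S : Finset V)
    (hS : ∀ x, x ∈ H.verts → x ∈ S) : 2 * H.edgeSet.ncard ≤ e2 G S := by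
  rw [e2_eq]
  refine Nat.mul_le_mul_left 2 (Set.ncard_le_ncard ?_ (Set.toFinite _))
  intro e he
  induction e with
  | _ x y =>
    have h : H.Adj x y := he
    exact ⟨hS x (H.edge_vert h), hS y (H.edge_vert h.symm), H.adj_sub h⟩

/-- in a set of two vertices, `e2 + 2 |S ∩ A| ≤ 4` if `A` is independent -/
theorem e2_two {V : Type} [Fintype V] [DecidableEq V] (G : SimpleGraph V) (S A : Finset V)
    (hA : Ind G A) (h : S.card = 2) : e2 G S + 2 * (S ∩ A).card ≤ 4 := by
  by_cases hc : (S ∩ A).card ≤ 1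
  · have := (e2_small G S).2 h; omega
  · have h1 : (S ∩ A).card ≤ S.card := card_le_card inter_subset_left
    have h2 : S ∩ A = S := eq_of_subset_of_card_le inter_subset_left (by omega)
    have h3 : Ind G S := by
      intro x hx y hy
      rw [← h2] at hx hy
      exact hA x (mem_inter.mp hx).2 y (mem_inter.mp hy).2
    rw [e2_ind G S h3]; omega

/-! ### Adding a path on three vertices -/

/-- the graph `G` with a path `a' - v' - b'` added (`a' = inr 0`, `b' = inr 1`, `v' = inr 2`), where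
`a'` is joined to `A` and `b'` is joined to `B` -/
def ext {V : Type} (G : SimpleGraph V) (A B : Finset V) : SimpleGraph (V ⊕ Fin 3) where
  Adj x y := match x, y with
    | Sum.inl x, Sum.inl y => G.Adj x y
    | Sum.inl x, Sum.inr i => (i = 0 ∧ x ∈ A) ∨ (i = 1 ∧ x ∈ B)
    | Sum.inr i, Sum.inl x => (i = 0 ∧ x ∈ A) ∨ (i = 1 ∧ x ∈ B)
    | Sum.inr i, Sum.inr j => (i ≠ 2 ∧ j = 2) ∨ (i = 2 ∧ j ≠ 2)
  symm := ⟨by
    rintro (x | i) (y | j) h
    · exact SimpleGraph.Adj.symm h
    · exact h
    · exact h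
    · rcases h with h | h
      · exact Or.inr ⟨h.2, h.1⟩
      · exact Or.inl ⟨h.2, h.1⟩⟩
  loopless := ⟨by
    rintro (x | i) h
    · exact G.loopless.1 x h
    · rcases h with h | h
      · exact h.1 h.2
      · exact h.2 h.1⟩

section
variable {V : Type} [Fintype V] [DecidableEq V]

/-- the old vertices of `S` -/
def lft (S : Finset (V ⊕ Fin 3)) : Finset V := univ.filter fun x => Sum.inl x ∈ S

theorem mem_lft (S : Finset (V ⊕ Fin 3)) (x : V) : x ∈ lft S ↔ Sum.inl x ∈ S := by simp [lft]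

/-- indicator of a new vertex -/
noncomputable def bit (S : Finset (V ⊕ Fin 3)) (i : Fin 3) : ℕ := ind (Sum.inr i ∈ S)

theorem card_split (S : Finset (V ⊕ Fin 3)) :
    S.card = (lft S).card + (bit S 0 + bit S 1 + bit S 2) := by
  rw [← sum_ind S, Fintype.sum_sum_type, Fin.sum_univ_three, ← sum_ind (lft S)]
  simp only [bit, mem_lft]

theorem e2_ext (G : SimpleGraph V) (A B : Finset V) (S : Finset (V ⊕ Fin 3)) :
    e2 (ext G A B) S = e2 G (lft S) + 2 * (bit S 0 * (lft S ∩ A).card) +
      2 * (bit S 1 * (lft S ∩ B).card) + 2 * (bit S 0 * bit S 2) + 2 * (bit S 1 * bit S 2) := by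
  have hA : ∀ A : Finset V, (lft S ∩ A).card = ∑ x : V, ind (Sum.inl x ∈ S ∧ x ∈ A) := by
    intro A
    rw [← sum_ind]
    simp only [mem_inter, mem_lft]
  have hE : e2 G (lft S) = ∑ x : V, ∑ y : V, ind (Sum.inl x ∈ S ∧ Sum.inl y ∈ S ∧ G.Adj x y) := by
    unfold e2
    simp only [mem_lft]
  have h1 : e2 (ext G A B) S = (∑ x : V, ∑ y : V, ind (Sum.inl x ∈ S ∧ Sum.inl y ∈ S ∧ G.Adj x y)) +
      (∑ x : V, ∑ i : Fin 3, ind (Sum.inl x ∈ S ∧ Sum.inr i ∈ S ∧
        ((i = 0 ∧ x ∈ A) ∨ (i = 1 ∧ x ∈ B)))) +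
      ((∑ i : Fin 3, ∑ x : V, ind (Sum.inr i ∈ S ∧ Sum.inl x ∈ S ∧
        ((i = 0 ∧ x ∈ A) ∨ (i = 1 ∧ x ∈ B)))) +
      ∑ i : Fin 3, ∑ j : Fin 3, ind (Sum.inr i ∈ S ∧ Sum.inr j ∈ S ∧
        ((i ≠ 2 ∧ j = 2) ∨ (i = 2 ∧ j ≠ 2)))) := by
    unfold e2
    rw [Fintype.sum_sum_type]
    simp only [Fintype.sum_sum_type, sum_add_distrib]
    rfl
  rw [h1, ← hE, hA A, hA B]
  generalize e2 G (lft S) = E
  simp only [Fin.sum_univ_three, bit, sum_add_distrib]
  have t : ∀ {p q : Prop}, (p ↔ q) → ind p = ind q := fun h => by rw [propext h]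
  by_cases h0 : (Sum.inr 0 : V ⊕ Fin 3) ∈ S <;> by_cases h1 : (Sum.inr 1 : V ⊕ Fin 3) ∈ S <;>
    by_cases h2 : (Sum.inr 2 : V ⊕ Fin 3) ∈ S <;>
    simp [h0, h1, h2, ind_pos True.intro, ind_neg not_false] <;> ring

omit [Fintype V] in
theorem bit_cases (S : Finset (V ⊕ Fin 3)) (i : Fin 3) :
    (Sum.inr i ∈ S ∧ bit S i = 1) ∨ (Sum.inr i ∉ S ∧ bit S i = 0) := by
  by_cases h : (Sum.inr i : V ⊕ Fin 3) ∈ S
  · exact Or.inl ⟨h, ind_pos h⟩
  · exact Or.inr ⟨h, ind_neg h⟩

theorem lft_ind {G : SimpleGraph V} {A B : Finset V} {S : Finset (V ⊕ Fin 3)}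
    (h : Ind (ext G A B) S) : Ind G (lft S) := fun x hx y hy hxy =>
  h (Sum.inl x) ((mem_lft S x).mp hx) (Sum.inl y) ((mem_lft S y).mp hy) hxy

/-- independent sets of the extension -/
theorem ext_indep {G : SimpleGraph V} {A B : Finset V} {t : ℕ}
    (h1 : ∀ S, Ind G S → S.card ≤ t)
    (h2 : ∀ S, Ind G S → (∀ x ∈ S, x ∉ A ∧ x ∉ B) → S.card + 1 ≤ t)
    (S : Finset (V ⊕ Fin 3)) (hS : Ind (ext G A B) S) : S.card ≤ t + 1 := by
  have hl := h1 _ (lft_ind hS)
  have hc := card_split S
  rcases bit_cases S 0 with ⟨m0, e0⟩ | ⟨m0, e0⟩ <;> rcases bit_cases S 1 with ⟨m1, e1⟩ | ⟨m1, e1⟩ <;>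
    rcases bit_cases S 2 with ⟨m2, e2⟩ | ⟨m2, e2⟩
  · exact absurd (Or.inl ⟨by decide, rfl⟩) (hS _ m0 _ m2)
  · have := h2 _ (lft_ind hS) fun x hx => ⟨fun hA => hS _ ((mem_lft S x).mp hx) _ m0 (Or.inl ⟨rfl, hA⟩),
      fun hB => hS _ ((mem_lft S x).mp hx) _ m1 (Or.inr ⟨rfl, hB⟩)⟩
    omega
  · exact absurd (Or.inl ⟨by decide, rfl⟩) (hS _ m0 _ m2)
  · omega
  · exact absurd (Or.inl ⟨by decide, rfl⟩) (hS _ m1 _ m2)
  · omega
  · omega
  · omega

theorem ext_indep' {G : SimpleGraph V} {A B : Finset V} {t : ℕ}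
    (h1 : ∀ S, Ind G S → S.card ≤ t)
    (S : Finset (V ⊕ Fin 3)) (hS : Ind (ext G A B) S) (m0 : Sum.inr 0 ∉ S) (m1 : Sum.inr 1 ∉ S)
    (m2 : Sum.inr 2 ∉ S) : S.card ≤ t := by
  have hl := h1 _ (lft_ind hS)
  have hc := card_split S
  have e0 : bit S 0 = 0 := ind_neg m0
  have e1 : bit S 1 = 0 := ind_neg m1
  have e2 : bit S 2 = 0 := ind_neg m2
  omega

end

/-- A graph on `3 t` vertices with a path `a - v - b` at its end to which further paths can be
added. -/
def Chain (t : ℕ) : Prop :=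
  ∃ (V : Type) (_ : Fintype V) (_ : DecidableEq V) (G : SimpleGraph V) (v a b : V),
    Fintype.card V = 3 * t ∧ a ≠ b ∧ v ≠ a ∧ v ≠ b ∧ ¬ G.Adj a b ∧
    (∀ S, Ind G S → S.card ≤ t) ∧
    (∀ S, Ind G S → v ∉ S → a ∉ S → b ∉ S → S.card + 1 ≤ t) ∧
    (∀ S : Finset V, 3 ≤ S.card → 7 * e2 G S + 40 ≤ 27 * S.card) ∧
    (∀ S : Finset V, 3 ≤ S.card → a ∈ S → b ∈ S → 7 * e2 G S + 41 ≤ 27 * S.card)

theorem Chain.step {t : ℕ} (h : Chain t) : Chain (t + 1) := by
  obtain ⟨V, i1, i2, G, v, a, b, hc, hab, hva, hvb, hnab, hI, hI', hD, hD'⟩ := h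
  have hB : Ind G {a, b} := by
    intro x hx y hy hxy
    simp only [mem_insert, mem_singleton] at hx hy
    rcases hx with rfl | rfl <;> rcases hy with rfl | rfl
    · exact hxy.ne rfl
    · exact hnab hxy
    · exact hnab hxy.symm
    · exact hxy.ne rfl
  -- the numerical facts
  have key : ∀ S : Finset (V ⊕ Fin 3), 3 ≤ S.card →
      7 * e2 (ext G {v} {a, b}) S + 40 ≤ 27 * S.card ∧
      (Sum.inr 0 ∈ S → Sum.inr 1 ∈ S → 7 * e2 (ext G {v} {a, b}) S + 41 ≤ 27 * S.card) := by
    intro S hS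
    have hcs := card_split S
    have he := e2_ext G {v} {a, b} S
    have s1 := e2_small G (lft S)
    have s2 := e2_two G (lft S) {v} (fun x hx y hy hxy => by
      rw [mem_singleton] at hx hy; subst hx; subst hy; exact hxy.ne rfl)
    have s3 := e2_two G (lft S) {a, b} hB
    have c1 : (lft S ∩ {v}).card ≤ 1 := (card_le_card inter_subset_right).trans (by simp)
    have c2 : (lft S ∩ {a, b}).card ≤ 2 := (card_le_card inter_subset_right).trans card_le_two
    have c3 : (lft S ∩ {v}).card + (lft S ∩ {a, b}).card ≤ (lft S).card := by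
      rw [← card_union_of_disjoint]
      · exact card_le_card (union_subset inter_subset_left inter_subset_left)
      · rw [disjoint_left]
        intro x hx hx'
        simp only [mem_inter, mem_singleton, mem_insert] at hx hx'
        rcases hx'.2 with h | h
        · exact hva (hx.2.symm.trans h)
        · exact hvb (hx.2.symm.trans h)
    have c4 := hD (lft S)
    have c5 : (lft S ∩ {a, b}).card = 2 → 3 ≤ (lft S).card → 7 * e2 G (lft S) + 41 ≤ 27 * (lft S).card := by
      intro h2 h3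
      have h4 : lft S ∩ {a, b} = {a, b} := eq_of_subset_of_card_le inter_subset_right
        (by rw [h2]; exact card_le_two)
      have h5 : {a, b} ⊆ lft S := fun x hx => (mem_inter.mp (h4.symm ▸ hx : x ∈ lft S ∩ {a, b})).1
      exact hD' _ h3 (h5 (by simp)) (h5 (by simp))
    obtain ⟨s11, s12⟩ := s1
    generalize (lft S ∩ {v}).card = α at *
    generalize (lft S ∩ {a, b}).card = β at *
    generalize (lft S).card = s at *
    generalize e2 G (lft S) = E at *
    rcases bit_cases S 0 with ⟨m0, e0⟩ | ⟨m0, e0⟩ <;>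
      rcases bit_cases S 1 with ⟨m1, e1⟩ | ⟨m1, e1⟩ <;>
      rcases bit_cases S 2 with ⟨m2, e2⟩ | ⟨m2, e2⟩ <;>
      rw [e0, e1, e2] at he hcs <;> simp only [m0, m1, forall_true_left, IsEmpty.forall_iff, and_true] <;>
      omega
  refine ⟨V ⊕ Fin 3, inferInstance, inferInstance, ext G {v} {a, b}, Sum.inr 2, Sum.inr 0, Sum.inr 1,
    by simp [hc]; ring, by simp, by simp, by simp, ?_, ?_, ?_, fun S hS => (key S hS).1,
    fun S hS h0 h1 => (key S hS).2 h0 h1⟩
  · rintro (h | h)
    · exact absurd h.2 (by decide)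
    · exact absurd h.1 (by decide)
  · refine ext_indep hI fun S hS hx => hI' S hS (fun h => (hx v h).1 (by simp))
      (fun h => (hx a h).2 (by simp)) (fun h => (hx b h).2 (by simp))
  · intro S hS m2 m0 m1
    have := ext_indep' hI S hS m0 m1 m2
    omega

/-! ### The start of the chain: the 12-vertex graph of the library -/

abbrev G0 : SimpleGraph (Fin 12) := Pool.Agent.H.MP_dcf9ac_co.G

theorem e2_G0 (S : Finset (Fin 12)) : e2 G0 S =
    ∑ a ∈ S, (S.filter (fun b => Pool.Agent.H.MP_dcf9ac_co.adj a b = true)).card := by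
  unfold e2
  rw [← sum_subset (subset_univ S)]
  · refine sum_congr rfl fun x hx => ?_
    rw [← sum_ind]
    refine sum_congr rfl fun y _ => ?_
    congr 1
    simp only [mem_filter, hx, true_and, eq_iff_iff]
    rfl
  · intro x _ hx
    exact sum_eq_zero fun y _ => ind_neg fun h => hx h.1

theorem sparse0 (S : Finset (Fin 12)) (h : 3 ≤ S.card) : e2 G0 S + 8 ≤ 4 * S.card := by
  have h1 := Pool.Agent.H.MP_dcf9ac_co.sparse S h
  rw [← e2_G0] at h1
  -- `e2` is even
  obtain ⟨k, hk⟩ := e2_even G0 S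
  omega

theorem indep0 (S : Finset (Fin 12)) (h : Ind G0 S) : S.card ≤ 4 := by
  by_contra hc
  obtain ⟨T, hT, hT'⟩ := exists_subset_card_eq (show 5 ≤ S.card by omega)
  obtain ⟨a, ha, b, hb, hab⟩ := Pool.Agent.H.MP_dcf9ac_co.indep T hT'
  exact h a (hT ha) b (hT hb) hab

/-- the vector of a set avoiding `0, 10, 4, 7` -/
def vec (b1 b2 b3 b5 b6 b8 b9 b11 : Bool) : Fin 12 → Bool := fun i =>
  [false, b1, b2, b3, false, b5, b6, false, b8, b9, false, b11].getD i.val false

open Pool.Agent.H.MP_dcf9ac_co in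
theorem key0 : ∀ b1 b2 b3 b5 b6 b8 b9 b11 : Bool,
    c1 (vec b1 b2 b3 b5 b6 b8 b9 b11) = 4 → c2 (vec b1 b2 b3 b5 b6 b8 b9 b11) ≠ 0 := by
  decide +kernel

open Pool.Agent.H.MP_dcf9ac_co in
theorem indep0' (S : Finset (Fin 12)) (h : Ind G0 S)
    (hx : ∀ x ∈ S, x ∉ ({0, 10} : Finset (Fin 12)) ∧ x ∉ ({4, 7} : Finset (Fin 12))) :
    S.card + 1 ≤ 4 := by
  by_contra hc
  obtain ⟨T, hT, hT'⟩ := exists_subset_card_eq (show 4 ≤ S.card by omega)
  have hv : ∀ x ∈ ({0, 10, 4, 7} : Finset (Fin 12)), x ∉ T := by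
    intro x hx1 hx2
    have := hx x (hT hx2)
    simp only [mem_insert, mem_singleton] at hx1 this
    tauto
  have e : (fun i : Fin 12 => decide (i ∈ T)) = vec (decide (1 ∈ T)) (decide (2 ∈ T))
      (decide (3 ∈ T)) (decide (5 ∈ T)) (decide (6 ∈ T)) (decide (8 ∈ T)) (decide (9 ∈ T))
      (decide (11 ∈ T)) := by
    have v0 := hv 0 (by decide)
    have v1 := hv 10 (by decide)
    have v2 := hv 4 (by decide)
    have v3 := hv 7 (by decide)
    funext i
    fin_cases i <;> simp [vec, v0, v1, v2, v3]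
  have h1 := key0 (decide (1 ∈ T)) (decide (2 ∈ T))
      (decide (3 ∈ T)) (decide (5 ∈ T)) (decide (6 ∈ T)) (decide (8 ∈ T)) (decide (9 ∈ T))
      (decide (11 ∈ T))
  rw [← e, c1_eq, c2_eq] at h1
  obtain ⟨a, ha, h2⟩ := exists_ne_zero_of_sum_ne_zero (h1 hT')
  obtain ⟨b, hb⟩ := card_ne_zero.mp h2
  exact h a (hT ha) b (hT (mem_filter.mp hb).1) (mem_filter.mp hb).2

theorem chain5 : Chain 5 := by
  refine ⟨Fin 12 ⊕ Fin 3, inferInstance, inferInstance, ext G0 {0, 10} {4, 7}, Sum.inr 2, Sum.inr 0,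
    Sum.inr 1, by simp, by simp, by simp, by simp, ?_, ?_, ?_, ?_, ?_⟩
  · rintro (h | h)
    · exact absurd h.2 (by decide)
    · exact absurd h.1 (by decide)
  · exact ext_indep indep0 indep0'
  · intro S hS m2 m0 m1
    have := ext_indep' indep0 S hS m0 m1 m2
    omega
  all_goals
    have hI : Ind G0 {0, 10} ∧ Ind G0 {4, 7} := by
      constructor
      · show ∀ x ∈ ({0, 10} : Finset (Fin 12)), ∀ y ∈ ({0, 10} : Finset (Fin 12)),
          ¬ (Pool.Agent.H.MP_dcf9ac_co.adj x y = true)
        decide +kernel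
      · show ∀ x ∈ ({4, 7} : Finset (Fin 12)), ∀ y ∈ ({4, 7} : Finset (Fin 12)),
          ¬ (Pool.Agent.H.MP_dcf9ac_co.adj x y = true)
        decide +kernel
    have key : ∀ S : Finset (Fin 12 ⊕ Fin 3), 3 ≤ S.card →
        7 * e2 (ext G0 {0, 10} {4, 7}) S + 41 ≤ 27 * S.card := by
      intro S hS
      have hcs := card_split S
      have he := e2_ext G0 {0, 10} {4, 7} S
      have s1 := e2_small G0 (lft S)
      have s2 := e2_two G0 (lft S) {0, 10} hI.1
      have s3 := e2_two G0 (lft S) {4, 7} hI.2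
      have c1 : (lft S ∩ {0, 10}).card ≤ 2 := (card_le_card inter_subset_right).trans card_le_two
      have c2 : (lft S ∩ {4, 7}).card ≤ 2 := (card_le_card inter_subset_right).trans card_le_two
      have c3 : (lft S ∩ {0, 10}).card + (lft S ∩ {4, 7}).card ≤ (lft S).card := by
        rw [← card_union_of_disjoint]
        · exact card_le_card (union_subset inter_subset_left inter_subset_left)
        · rw [disjoint_left]
          intro x hx hx'
          simp only [mem_inter, mem_singleton, mem_insert] at hx hx'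
          omega
      have c4 := sparse0 (lft S)
      have c6 : (lft S).card ≤ 12 := by simpa using card_le_univ (lft S)
      obtain ⟨s11, s12⟩ := s1
      generalize (lft S ∩ {0, 10}).card = α at *
      generalize (lft S ∩ {4, 7}).card = β at *
      generalize (lft S).card = s at *
      generalize e2 G0 (lft S) = E at *
      rcases bit_cases S 0 with ⟨m0, e0⟩ | ⟨m0, e0⟩ <;>
        rcases bit_cases S 1 with ⟨m1, e1⟩ | ⟨m1, e1⟩ <;>
        rcases bit_cases S 2 with ⟨m2, e2⟩ | ⟨m2, e2⟩ <;>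
        rw [e0, e1, e2] at he hcs <;> omega
  · intro S hS; have := key S hS; omega
  · intro S hS _ _; exact key S hS

/-! ### From the counts to the 2-density -/

/-- what we use of the graphs -/
def Dense (t : ℕ) : Prop :=
  ∃ (V : Type) (_ : Fintype V) (G : SimpleGraph V), Fintype.card V = 3 * t ∧
    (∀ S, Ind G S → S.card ≤ t) ∧ (∀ S : Finset V, 3 ≤ S.card → 7 * e2 G S + 40 ≤ 27 * S.card)

theorem dense (t : ℕ) (ht : 4 ≤ t) : Dense t := by
  rcases Nat.eq_or_lt_of_le ht with rfl | ht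
  · refine ⟨Fin 12, inferInstance, G0, by simp, indep0, fun S hS => ?_⟩
    have h1 := sparse0 S hS
    have h2 : S.card ≤ 12 := by simpa using card_le_univ S
    omega
  · have : Chain t := by
      induction t, ht using Nat.le_induction with
      | base => exact chain5
      | succ n hn ih => exact (ih (by omega)).step
    obtain ⟨V, i1, _, G, v, a, b, hc, -, -, -, -, hI, -, hD, -⟩ := this
    exact ⟨V, i1, G, hc, hI, hD⟩

theorem m2_le {V : Type} [Fintype V] (G : SimpleGraph V) (c : ℝ) (hV : 3 ≤ Fintype.card V)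
    (h : ∀ S : Finset V, 3 ≤ S.card → (e2 G S : ℝ) / 2 - 1 ≤ c * (S.card - 2)) : m2 G ≤ c := by
  classical
  refine csSup_le ⟨_, ⊤, by simpa [Set.ncard_univ] using hV, rfl⟩ ?_
  rintro x ⟨H, hH, rfl⟩
  have h1 := sub_edges H H.verts.toFinset (fun x hx => by simpa using hx)
  have h2 : H.verts.toFinset.card = H.verts.ncard := (Set.ncard_eq_toFinset_card' _).symm
  have h3 := h H.verts.toFinset (by rw [h2]; exact hH)
  rw [h2] at h3
  unfold d2
  have h4 : (3 : ℝ) ≤ H.verts.ncard := by exact_mod_cast hH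
  rw [div_le_iff₀ (by linarith)]
  have h5 : (2 : ℝ) * H.edgeSet.ncard ≤ e2 G H.verts.toFinset := by exact_mod_cast h1
  linarith

theorem le_m2 {V : Type} [Fintype V] (G : SimpleGraph V) (a b c : V) (h1 : G.Adj a b)
    (h2 : G.Adj b c) (h3 : G.Adj a c) : 2 ≤ m2 G := by
  classical
  have hfin : ({x : ℝ | ∃ H : G.Subgraph, 3 ≤ H.verts.ncard ∧ x = d2 H}).Finite := by
    refine (Set.finite_range (fun H : G.Subgraph => d2 H)).subset ?_
    rintro x ⟨H, _, rfl⟩
    exact ⟨H, rfl⟩
  let H : G.Subgraph := (⊤ : G.Subgraph).induce {a, b, c}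
  have hv : H.verts.ncard = 3 := by
    have : H.verts = {a, b, c} := rfl
    rw [this]
    exact Set.ncard_eq_three.mpr ⟨a, b, c, h1.ne, h3.ne, h2.ne, rfl⟩
  have he : 3 ≤ H.edgeSet.ncard := by
    have h4 : ({s(a, b), s(b, c), s(a, c)} : Set (Sym2 V)) ⊆ H.edgeSet := by
      intro e he
      rcases he with rfl | rfl | rfl
      · exact ⟨by simp, by simp, h1⟩
      · exact ⟨by simp, by simp, h2⟩
      · exact ⟨by simp, by simp, h3⟩
    have h5 : ({s(a, b), s(b, c), s(a, c)} : Set (Sym2 V)).ncard = 3 := by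
      refine Set.ncard_eq_three.mpr ⟨_, _, _, ?_, ?_, ?_, rfl⟩
      · simp [h1.ne, h1.ne', h2.ne, h2.ne', h3.ne, h3.ne']
      · simp [h1.ne, h1.ne', h2.ne, h2.ne', h3.ne, h3.ne']
      · simp [h1.ne, h1.ne', h2.ne, h2.ne', h3.ne, h3.ne']
    rw [← h5]
    exact Set.ncard_le_ncard h4 (Set.toFinite _)
  refine le_trans ?_ (le_csSup hfin.bddAbove ⟨H, by rw [hv], rfl⟩)
  unfold d2
  rw [hv]
  have : (3 : ℝ) ≤ H.edgeSet.ncard := by exact_mod_cast he
  norm_num
  linarith

theorem M_finite (m r : ℕ) :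
    ({x : ℝ | ∃ G : SimpleGraph (Fin m), Gᶜ.CliqueFree r ∧ x = m2 G}).Finite := by
  refine (Set.finite_range (fun G : SimpleGraph (Fin m) => m2 G)).subset ?_
  rintro x ⟨G, _, rfl⟩
  exact ⟨G, rfl⟩

theorem M_le {m r : ℕ} (G : SimpleGraph (Fin m)) (hG : Gᶜ.CliqueFree r) : M m r ≤ m2 G :=
  csInf_le (M_finite m r).bddBelow ⟨G, hG, rfl⟩

/-! ### Upper bounds -/

theorem upper (t : ℕ) (ht : 4 ≤ t) : M (3 * t) (t + 1) ≤ 27 / 14 := by
  classical
  obtain ⟨V, i1, G, hc, hI, hD⟩ := dense t ht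
  let e : V ≃ Fin (3 * t) := Fintype.equivFinOfCardEq hc
  let G' : SimpleGraph (Fin (3 * t)) := G.comap e.symm
  have h1 : G'ᶜ.CliqueFree (t + 1) := by
    intro S hS
    have h2 := hI (S.map e.symm.toEmbedding) (by
      intro x hx y hy hxy
      rw [mem_map_equiv] at hx hy
      have h3 := hS.isClique (mem_coe.mpr hx) (mem_coe.mpr hy) (by simpa using hxy.ne)
      exact h3.2 (by simpa [G'] using hxy))
    rw [card_map, hS.card_eq] at h2
    omega
  refine (M_le G' h1).trans (m2_le G' _ (by simp; omega) fun S hS => ?_)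
  have h2 : e2 G' S = e2 G (S.map e.symm.toEmbedding) := by
    unfold e2
    rw [← e.symm.sum_comp]
    refine sum_congr rfl fun x _ => ?_
    rw [← e.symm.sum_comp]
    refine sum_congr rfl fun y _ => ?_
    simp only [mem_map_equiv, Equiv.symm_symm, Equiv.apply_symm_apply]
    rfl
  have h3 := hD (S.map e.symm.toEmbedding) (by rw [card_map]; exact hS)
  rw [card_map, ← h2] at h3
  have h4 : (7 : ℝ) * e2 G' S + 40 ≤ 27 * S.card := by exact_mod_cast h3
  linarith

/-- the disjoint union of `t` triangles -/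
def triangles (t : ℕ) : SimpleGraph (Fin (3 * t)) where
  Adj i j := i ≠ j ∧ i.val / 3 = j.val / 3
  symm := ⟨fun _ _ h => ⟨h.1.symm, h.2.symm⟩⟩
  loopless := ⟨fun _ h => h.1 rfl⟩

theorem upper2 (t : ℕ) (ht : 1 ≤ t) : M (3 * t) (t + 1) ≤ 2 := by
  classical
  have h1 : (triangles t)ᶜ.CliqueFree (t + 1) := by
    intro S hS
    have h2 : S.card ≤ (range t).card := by
      refine card_le_card_of_injOn (fun i => i.val / 3) (fun i _ => ?_) ?_
      · have := i.2
        simp only [coe_range, Set.mem_Iio]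
        omega
      · intro i hi j hj hij
        by_contra hne
        exact (hS.isClique hi hj hne).2 ⟨hne, hij⟩
    rw [hS.card_eq, card_range] at h2
    omega
  refine (M_le _ h1).trans (m2_le _ _ (by simp; omega) fun S hS => ?_)
  have h2 : e2 (triangles t) S ≤ 2 * S.card := by
    unfold e2
    rw [← sum_ind S, mul_sum]
    refine sum_le_sum fun x _ => ?_
    by_cases hx : x ∈ S
    · rw [ind_pos hx]
      calc ∑ y, ind (x ∈ S ∧ y ∈ S ∧ (triangles t).Adj x y)
          ≤ ∑ y, ind (y ∈ univ.filter fun y : Fin (3 * t) => x ≠ y ∧ x.val / 3 = y.val / 3) := by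
            refine sum_le_sum fun y _ => ?_
            by_cases h : x ∈ S ∧ y ∈ S ∧ (triangles t).Adj x y
            · have hm : y ∈ univ.filter fun y : Fin (3 * t) => x ≠ y ∧ x.val / 3 = y.val / 3 :=
                mem_filter.mpr ⟨mem_univ y, h.2.2⟩
              rw [ind_pos h, ind_pos hm]
            · rw [ind_neg h]; omega
        _ = (univ.filter fun y : Fin (3 * t) => x ≠ y ∧ x.val / 3 = y.val / 3).card := sum_ind _
        _ ≤ ((range 3).erase (x.val % 3)).card := by
            refine card_le_card_of_injOn (fun i => i.val % 3) (fun i hi => ?_) ?_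
            · simp only [coe_filter, mem_univ, true_and, Set.mem_ofPred_eq] at hi
              simp only [coe_erase, coe_range, Set.mem_sdiff, Set.mem_Iio, Set.mem_singleton_iff]
              refine ⟨by omega, fun h => hi.1 (Fin.ext ?_)⟩
              omega
            · intro i hi j hj hij
              simp only [coe_filter, mem_univ, true_and, Set.mem_ofPred_eq] at hi hj hij
              exact Fin.ext (by omega)
        _ = 2 * 1 := by
            rw [card_erase_of_mem (by simp; omega)]; rfl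
    · rw [ind_neg hx]
      exact (sum_eq_zero fun y _ => ind_neg fun h => hx h.1).le
  have h3 : (e2 (triangles t) S : ℝ) ≤ 2 * S.card := by exact_mod_cast h2
  have h4 : (3 : ℝ) ≤ S.card := by exact_mod_cast hS
  linarith

/-! ### Lower bounds: small Ramsey numbers -/

section
variable {V : Type} [Fintype V] [DecidableEq V] (G : SimpleGraph V)

omit [Fintype V] [DecidableEq V] in
theorem nbh_ind (htf : ∀ a b c, G.Adj a b → G.Adj b c → ¬ G.Adj a c) (v : V) (S : Finset V)
    (hS : ∀ x ∈ S, G.Adj v x) : Ind G S := fun x hx y hy hxy =>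
  htf v x y (hS x hx) hxy (hS y hy)

omit [Fintype V] in
open Classical in
theorem r33 (htf : ∀ a b c, G.Adj a b → G.Adj b c → ¬ G.Adj a c) (S : Finset V) (hS : 6 ≤ S.card) :
    ∃ T ⊆ S, T.card = 3 ∧ Ind G T := by
  obtain ⟨v, hv⟩ := card_pos.mp (show 0 < S.card by omega)
  have h1 := card_filter_add_card_filter_not (s := S.erase v) (p := fun x => G.Adj v x)
  rw [card_erase_of_mem hv] at h1
  by_cases h : 3 ≤ ((S.erase v).filter (fun x => G.Adj v x)).card
  · obtain ⟨T, hT, hT'⟩ := exists_subset_card_eq h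
    exact ⟨T, fun x hx => mem_of_mem_erase (mem_filter.mp (hT hx)).1, hT',
      nbh_ind G htf v T fun x hx => (mem_filter.mp (hT hx)).2⟩
  · obtain ⟨T, hT, hT'⟩ := exists_subset_card_eq
      (show 3 ≤ ((S.erase v).filter (fun x => ¬ G.Adj v x)).card by omega)
    obtain ⟨x, y, z, hxy, hxz, hyz, rfl⟩ := card_eq_three.mp hT'
    have hx := mem_filter.mp (hT (by simp : x ∈ ({x, y, z} : Finset V)))
    have hy := mem_filter.mp (hT (by simp : y ∈ ({x, y, z} : Finset V)))
    have hz := mem_filter.mp (hT (by simp : z ∈ ({x, y, z} : Finset V)))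
    have go : ∀ p q : V, p ∈ S.erase v → q ∈ S.erase v → ¬ G.Adj v p → ¬ G.Adj v q → p ≠ q →
        ¬ G.Adj p q → ∃ T ⊆ S, T.card = 3 ∧ Ind G T := by
      intro p q hp hq h1 h2 hne h3
      refine ⟨{v, p, q}, ?_, card_eq_three.mpr ⟨v, p, q, ?_, ?_, hne, rfl⟩, ?_⟩
      · intro a ha
        simp only [mem_insert, mem_singleton] at ha
        rcases ha with rfl | rfl | rfl
        · exact hv
        · exact mem_of_mem_erase hp
        · exact mem_of_mem_erase hq
      · exact (ne_of_mem_erase hp).symm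
      · exact (ne_of_mem_erase hq).symm
      · intro a ha b hb hab
        simp only [mem_insert, mem_singleton] at ha hb
        rcases ha with rfl | rfl | rfl <;> rcases hb with rfl | rfl | rfl <;>
          first
            | exact hab.ne rfl
            | exact h1 hab
            | exact h1 hab.symm
            | exact h2 hab
            | exact h2 hab.symm
            | exact h3 hab
            | exact h3 hab.symm
    by_cases a1 : G.Adj x y
    · by_cases a2 : G.Adj y z
      · exact go x z hx.1 hz.1 hx.2 hz.2 hxz (htf x y z a1 a2)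
      · exact go y z hy.1 hz.1 hy.2 hz.2 hyz a2
    · exact go x y hx.1 hy.1 hx.2 hy.2 hxy a1

open Classical in
theorem r34 (htf : ∀ a b c, G.Adj a b → G.Adj b c → ¬ G.Adj a c) (hV : Fintype.card V = 9) :
    ∃ T : Finset V, T.card = 4 ∧ Ind G T := by
  by_cases h4 : ∃ v, 4 ≤ (G.neighborFinset v).card
  · obtain ⟨v, hv⟩ := h4
    obtain ⟨T, hT, hT'⟩ := exists_subset_card_eq hv
    exact ⟨T, hT', nbh_ind G htf v T fun x hx => (G.mem_neighborFinset v x).mp (hT hx)⟩
  · by_cases h2 : ∃ v, (G.neighborFinset v).card ≤ 2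
    · obtain ⟨v, hv⟩ := h2
      have h1 : 6 ≤ ((univ.erase v) \ G.neighborFinset v).card := by
        have := le_card_sdiff (G.neighborFinset v) (univ.erase v)
        rw [card_erase_of_mem (mem_univ v), card_univ, hV] at this
        omega
      obtain ⟨T, hT, hT', hI⟩ := r33 G htf _ h1
      have hvT : v ∉ T := fun h => by
        have := hT h
        simp at this
      refine ⟨insert v T, by rw [card_insert_of_notMem hvT, hT'], ?_⟩
      have hn : ∀ x ∈ T, ¬ G.Adj v x := fun x hx h => by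
        have := hT hx
        rw [mem_sdiff, SimpleGraph.mem_neighborFinset] at this
        exact this.2 h
      intro a ha b hb hab
      rw [mem_insert] at ha hb
      rcases ha with rfl | ha <;> rcases hb with rfl | hb
      · exact hab.ne rfl
      · exact hn b hb hab
      · exact hn a ha hab.symm
      · exact hI a ha b hb hab
    · exfalso
      push Not at h4 h2
      have h3 : ∀ v, G.degree v = 3 := fun v => by
        have a1 := h4 v
        have a2 := h2 v
        rw [SimpleGraph.card_neighborFinset_eq_degree] at a1 a2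
        omega
      have h5 := G.sum_degrees_eq_twice_card_edges
      simp only [h3, sum_const, card_univ, hV, smul_eq_mul] at h5
      omega

end

theorem lower (t : ℕ) (ht : 1 ≤ t) (ht3 : t ≤ 3) : 2 ≤ M (3 * t) (t + 1) := by
  classical
  refine le_csInf ⟨_, ⊤, ?_, rfl⟩ ?_
  · rw [compl_top]
    exact SimpleGraph.cliqueFree_bot (by omega)
  · rintro x ⟨G, hG, rfl⟩
    by_cases htf : ∀ a b c, G.Adj a b → G.Adj b c → ¬ G.Adj a c
    · exfalso
      have fin : ∀ T : Finset (Fin (3 * t)), T.card = t + 1 → Ind G T → False := by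
        intro T hT hI
        refine hG T ⟨?_, hT⟩
        intro a ha b hb hab
        exact ⟨hab, hI a ha b hb⟩
      interval_cases t
      · -- three vertices, no independent pair
        have h1 : ∀ a b : Fin (3 * 1), a ≠ b → G.Adj a b := by
          intro a b hab
          by_contra h
          refine fin {a, b} (card_pair hab) ?_
          intro x hx y hy hxy
          simp only [mem_insert, mem_singleton] at hx hy
          rcases hx with rfl | rfl <;> rcases hy with rfl | rfl
          · exact hxy.ne rfl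
          · exact h hxy
          · exact h hxy.symm
          · exact hxy.ne rfl
        exact htf 0 1 2 (h1 _ _ (by decide)) (h1 _ _ (by decide)) (h1 _ _ (by decide))
      · obtain ⟨T, _, hT, hI⟩ := r33 G htf univ (by simp)
        exact fin T hT hI
      · obtain ⟨T, hT, hI⟩ := r34 G htf (by simp)
        exact fin T hT hI
    · push Not at htf
      obtain ⟨a, b, c, h1, h2, h3⟩ := htf
      exact le_m2 G a b c h1 h2 h3

/-- **The case `k = 3`.**  For every `r ≥ 2` the least 2-density `M(3(r-1), r)` of a graph on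
`3(r-1)` vertices without an independent set of size `r` equals `m₂(K₃) = 2` if and only if `r ≤ 4`,
and for every `r ≥ 5` it is at most `27/14`. -/
theorem result : ∀ r : ℕ, 2 ≤ r →
    (M (3 * (r - 1)) r = 2 ↔ r ≤ 4) ∧ (5 ≤ r → M (3 * (r - 1)) r ≤ 27 / 14) := by
  intro r hr
  obtain ⟨t, rfl⟩ : ∃ t, r = t + 1 := ⟨r - 1, by omega⟩
  rw [Nat.add_sub_cancel]
  have h1 : 5 ≤ t + 1 → M (3 * t) (t + 1) ≤ 27 / 14 := fun h => upper t (by omega)
  refine ⟨⟨fun h => ?_, fun h => ?_⟩, h1⟩
  · by_contra hc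
    have := h1 (by omega)
    rw [h] at this
    norm_num at this
  · exact le_antisymm (upper2 t (by omega)) (lower t (by omega) (by omega))

end Pool.Agent.Results.MP_dcf9ac_co.TripleCase
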